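import Pool.Agent.H23.Ent

set_option autoImplicit false

namespace Pool.Agent.Results.MP_7216ee_lc.K5
open Finset ENNReal Pool.Agent.H23.Ent

variable {n : ℕ}

/-- Shannon entropy (base 2, possibly infinite) of the variables in `S` under the joint law `p` -/
noncomputable def H (p : PMF (Fin n → ℕ)) (S : Finset (Fin n)) : ℝ≥0∞ :=
  ∑' y : S → ℕ, .ofReal (Real.negMulLog (p.map (fun x (i : S) => x i) y).toReal / Real.log 2)

/-- polymatroids -/
def Polym (f : Finset (Fin n) → ℝ) : Prop :=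
  f ∅ = 0 ∧ (∀ S, 0 ≤ f S) ∧ (∀ S T, S ⊆ T → f S ≤ f T) ∧ ∀ S T, f (S ∩ T) + f (S ∪ T) ≤ f S + f T

/-- the linear form with coefficients `a` on singletons and `b` on pairs -/
def form (a : Fin n → ℝ) (b : Fin n → Fin n → ℝ) (f : Finset (Fin n) → ℝ) : ℝ :=
  ∑ i, a i * f {i} + ∑ i, ∑ j with i < j, b i j * f {i, j}

theorem H_eq (p : PMF (Fin n → ℕ)) (S : Finset (Fin n)) :
    H p S = HH p (rel (fun i x => x i) S) / .ofReal (Real.log 2) := by
  classical
  have e : ∀ x, m p (rel (fun i x => x i) S) x = p.map (fun x (i : S) => x i) fun i : S => x i :=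
    fun x => by
      rw [PMF.map_apply, m]
      refine tsum_congr fun η => ?_
      congr 1
      exact propext ⟨fun a => funext fun i => (a i i.2).symm, fun a i b => (congrFun a ⟨i, b⟩).symm⟩
  have f : ∀ y, ENNReal.ofReal (Real.negMulLog (p.map (fun x (i : S) => x i) y).toReal) =
      ∑' x, if y = fun i : S => x i then p x * L (p.map (fun x (i : S) => x i) y) else 0 := fun y => by
    rw [Real.negMulLog, neg_mul_comm, ofReal_mul toReal_nonneg, ofReal_toReal (PMF.apply_ne_top _ _),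
      ← L]
    nth_rw 1 [PMF.map_apply]
    rw [← ENNReal.tsum_mul_right]
    exact tsum_congr fun x => by split_ifs <;> simp
  simp only [H, HH, ofReal_div_of_pos (Real.log_pos one_lt_two), f, e]
  simp only [div_eq_mul_inv, ENNReal.tsum_mul_right]
  rw [ENNReal.tsum_comm]
  simp

def g (S : Finset (Fin 5)) : ℕ :=
  if 4 ∈ S ∨ (2 ∈ S ∧ 3 ∈ S) then if 0 ∈ S ∨ 1 ∈ S then 4 else 3 else
  if 0 ∈ S ∧ 1 ∈ S then 4 else min 4 (#S + 1) * min 1 #S

theorem result : ∃ (n : ℕ) (a : Fin n → ℝ) (b : Fin n → Fin n → ℝ),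
    (∀ p : PMF (Fin n → ℕ), (∀ i, H p {i} ≠ ⊤) → 0 ≤ form a b fun S => (H p S).toReal) ∧
      ∃ f, Polym f ∧ form a b f < 0 := by
  have e : ∀ f : Finset (Fin 5) → ℝ, form ![-1, 0, -2, -2, -5] ![![0, -1, 3, 3, -4],
      ![0, 0, 1, 1, -1], ![0, 0, 0, -2, 5], ![0, 0, 0, 0, 5], 0] f = -f {0} - 2 * f {2} -
      2 * f {3} - 5 * f {4} - f {0, 1} + 3 * f {0, 2} + 3 * f {0, 3} - 4 * f {0, 4} + f {1, 2} +
      f {1, 3} - f {1, 4} - 2 * f {2, 3} + 5 * f {2, 4} + 5 * f {3, 4} := fun f => by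
    simp +decide [form, sum_filter, Fin.sum_univ_five]
    ring
  refine ⟨5, _, _, fun p h => le_of_le_of_eq ?_ (e _).symm, fun S => g S, ⟨by simp [g], by simp, fun S T c => ?_,
    fun S T => ?_⟩, (e _).trans_lt ?_⟩
  · have l := Real.log_pos one_lt_two
    have h' : ∀ i, HH p (rel (fun i x => x i) {i}) ≠ ⊤ := fun i c => h i (by
      rw [H_eq, c, top_div_of_ne_top ofReal_ne_top])
    have z := zy p.tsum_coe h' 0 1 2 3
    have s := F_sub p.tsum_coe h'
    have s1 := s {0, 2, 3} {2, 3, 4} {0, 2, 3, 4} {2, 3} (by decide)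
    have s2 := s {1, 2, 3} {2, 3, 4} {1, 2, 3, 4} {2, 3} (by decide)
    have s3 := s {2, 4} {3, 4} {2, 3, 4} {4} (by decide)
    have s4 := F_mono p.tsum_coe h' {0, 4} {0, 2, 3, 4} (by decide)
    have s5 := F_mono p.tsum_coe h' {1, 4} {1, 2, 3, 4} (by decide)
    simp only [H_eq, toReal_div, toReal_ofReal l.le, F] at *
    rw [← mul_nonneg_iff_of_pos_right l]
    simp only [add_mul, sub_mul, neg_mul, mul_assoc, div_mul_cancel₀ _ l.ne']
    linarith
  · dsimp only
    exact_mod_cast (by decide +kernel : ∀ S T, S ⊆ T → g S ≤ g T) S T c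
  · dsimp only
    exact_mod_cast (by decide +kernel : ∀ S T, g (S ∩ T) + g (S ∪ T) ≤ g S + g T) S T
  · simp +decide [g]
    norm_num

end Pool.Agent.Results.MP_7216ee_lc.K5
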